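import Pool.Agent.SAIL.ERG.All
import Pool.Agent.SAIL.ARI.P_ADJ
import Pool.Agent.SAIL.ARI.P_B1
import Pool.Agent.SAIL.ARI.P_B10
import Pool.Agent.SAIL.ARI.P_B2
import Pool.Agent.SAIL.ARI.P_B3
import Pool.Agent.SAIL.ARI.P_B4
import Pool.Agent.SAIL.ARI.P_B5
import Pool.Agent.SAIL.ARI.P_B6
import Pool.Agent.SAIL.ARI.P_B7
import Pool.Agent.SAIL.ARI.P_B8
import Pool.Agent.SAIL.ARI.P_B9
import Pool.Agent.SAIL.ARI.P_BAS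
import Pool.Agent.SAIL.ARI.P_C1
import Pool.Agent.SAIL.ARI.P_C10
import Pool.Agent.SAIL.ARI.P_C2
import Pool.Agent.SAIL.ARI.P_C3
import Pool.Agent.SAIL.ARI.P_C4
import Pool.Agent.SAIL.ARI.P_C5
import Pool.Agent.SAIL.ARI.P_C6
import Pool.Agent.SAIL.ARI.P_C7
import Pool.Agent.SAIL.ARI.P_C7p
import Pool.Agent.SAIL.ARI.P_C8
import Pool.Agent.SAIL.ARI.P_C9
import Pool.Agent.SAIL.ARI.P_CRO
import Pool.Agent.SAIL.ARI.P_DA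
import Pool.Agent.SAIL.ARI.P_DB
import Pool.Agent.SAIL.ARI.P_DOM
import Pool.Agent.SAIL.ARI.P_DUAL
import Pool.Agent.SAIL.ARI.P_DVD
import Pool.Agent.SAIL.ARI.P_E1
import Pool.Agent.SAIL.ARI.P_E2
import Pool.Agent.SAIL.ARI.P_E3
import Pool.Agent.SAIL.ARI.P_EQ
import Pool.Agent.SAIL.ARI.P_EXI
import Pool.Agent.SAIL.ARI.P_FOB
import Pool.Agent.SAIL.ARI.P_FOUR
import Pool.Agent.SAIL.ARI.P_GF
import Pool.Agent.SAIL.ARI.P_GM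
import Pool.Agent.SAIL.ARI.P_LB
import Pool.Agent.SAIL.ARI.P_N1
import Pool.Agent.SAIL.ARI.P_N2
import Pool.Agent.SAIL.ARI.P_N3
import Pool.Agent.SAIL.ARI.P_N4
import Pool.Agent.SAIL.ARI.P_ORD
import Pool.Agent.SAIL.ARI.P_S1
import Pool.Agent.SAIL.ARI.P_S2
import Pool.Agent.SAIL.ARI.P_S3
import Pool.Agent.SAIL.ARI.P_S4
import Pool.Agent.SAIL.ARI.P_S5
import Pool.Agent.SAIL.ARI.P_SPEC
import Pool.Agent.SAIL.ARI.P_TIGHT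

/-!
# SAIL, part D: everything unconditionally
-/

namespace SAIL.AD

open SAIL SAIL.A

theorem ADJ : tADJ := SAIL.A.p_ADJ
theorem B4 : tB4 := SAIL.A.p_B4
theorem BAS : tBAS := SAIL.A.p_BAS
theorem C10 : tC10 := SAIL.A.p_C10 ADJ
theorem C6 : tC6 := SAIL.A.p_C6
theorem C7 : tC7 := SAIL.A.p_C7
theorem C7p : tC7' := SAIL.A.p_C7p
theorem DUAL : tDUAL := SAIL.A.p_DUAL ADJ
theorem DVD : tDVD := SAIL.A.p_DVD ADJ DUAL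
theorem E1 : tE1 := SAIL.A.p_E1
theorem E2 : tE2 := SAIL.A.p_E2
theorem E3 : tE3 := SAIL.A.p_E3
theorem EXI : tEXI := SAIL.A.p_EXI
theorem FOB : tFOB := SAIL.A.p_FOB ADJ DUAL
theorem FOUR : tFOUR := SAIL.A.p_FOUR
theorem GM : tGM := SAIL.A.p_GM
theorem N1 : tN1 := SAIL.A.p_N1 ADJ DUAL BAS
theorem N2 : tN2 := SAIL.A.p_N2 ADJ GM
theorem N3 : tN3 := SAIL.A.p_N3
theorem ORD : tORD := SAIL.A.p_ORD
theorem S1 : tS1 := SAIL.A.p_S1 B4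
theorem S2 : tS2 := SAIL.A.p_S2
theorem S3 : tS3 := SAIL.A.p_S3 B4
theorem S4 : tS4 := SAIL.A.p_S4
theorem S5 : tS5 := SAIL.A.p_S5
theorem SPEC : tSPEC := SAIL.A.p_SPEC ADJ DUAL DVD
theorem B1 : tB1 := SAIL.A.p_B1 BAS
theorem B10 : tB10 := SAIL.A.p_B10 S5
theorem B2 : tB2 := SAIL.A.p_B2 BAS
theorem B3 : tB3 := SAIL.A.p_B3 EXI BAS
theorem B5 : tB5 := SAIL.A.p_B5 B4 S1 S2
theorem B6 : tB6 := SAIL.A.p_B6 B4 S1 S2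
theorem B7 : tB7 := SAIL.A.p_B7 B4 S1 S2
theorem B8 : tB8 := SAIL.A.p_B8 B4 S1 S2
theorem B9 : tB9 := SAIL.A.p_B9 B4 S2 S3 S4
theorem C4 : tC4 := SAIL.A.p_C4 SPEC FOB B3 B10
theorem C8 : tC8 := SAIL.A.p_C8 SPEC
theorem C9 : tC9 := SAIL.A.p_C9 SPEC
theorem CRO : tCRO := SAIL.A.p_CRO ADJ DUAL DVD SPEC
theorem DA : tDA := SAIL.A.p_DA GM SPEC C6 C7 E3
theorem GF : tGF := SAIL.A.p_GF ADJ DUAL SPEC CRO ORD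
theorem N4 : tN4 := SAIL.A.p_N4 ADJ DVD SPEC ORD
theorem TIGHT : tTIGHT := SAIL.A.p_TIGHT SPEC C6 C7 C7p N1 N2 N3 N4
theorem C1 : tC1 := SAIL.A.p_C1 SPEC GF FOUR B1 B5
theorem C2 : tC2 := SAIL.A.p_C2 ADJ DUAL SPEC GF FOUR B1 B5
theorem C3 : tC3 := SAIL.A.p_C3 DUAL GF FOUR B2 B5 B6
theorem C5 : tC5 := SAIL.A.p_C5 ADJ SPEC GF FOUR GM B1 B7 B8 B9 C1
theorem DB : tDB := SAIL.A.p_DB SAIL.ERGA.CSFu SAIL.ERGA.LMUL GM C5 E1 E2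
theorem DOM : tDOM := SAIL.A.p_DOM DA DB
theorem EQ : tEQ :=
  SAIL.A.p_EQ SAIL.ERGA.PSl SAIL.ERGA.MN SAIL.ERGA.COR SAIL.ERGA.CUT SAIL.ERGA.MAHD SAIL.ERGA.FIN
    DOM TIGHT C1 C3 C8 C9 GM
theorem LB : tLB := SAIL.A.p_LB C2 C3 C4 C6 C10

end SAIL.AD
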