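import Pool.Agent.SAIL.FAC.Targets

/-!
# Triangular faces of two-dimensional sails are more frequent than quadrangular ones

Alternative (i) of the question: `liminf T(m) / Q(m) > 1`, over the `m` with `Q(m) > 0`.
-/

open Filter

namespace SAIL.FINdraft

/-- The integer points of `R^3`. -/
def IntPoints : Set (Fin 3 → ℝ) := {x | ∃ z : Fin 3 → ℤ, x = fun i => (z i : ℝ)}

/-- The convex hull of the nonzero integer points of the closure of a cone `C`.
The boundary of this set is the sail of `C`. -/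
def Hull (C : Set (Fin 3 → ℝ)) : Set (Fin 3 → ℝ) :=
  convexHull ℝ {x | x ∈ closure C ∧ x ∈ IntPoints ∧ x ≠ 0}

/-- `F` is a bounded two-dimensional face of the sail of `C`. -/
def IsBoundedFace (C F : Set (Fin 3 → ℝ)) : Prop :=
  IsExposed ℝ (Hull C) F ∧ Bornology.IsBounded F ∧ Module.finrank ℝ (vectorSpan ℝ F) = 2

/-- `C` is one of the (eight) open simplicial cones spanned by eigenvectors of `A` for three
distinct eigenvalues. -/
def IsEigenCone (A : Matrix (Fin 3) (Fin 3) ℤ) (C : Set (Fin 3 → ℝ)) : Prop :=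
  ∃ (v : Fin 3 → Fin 3 → ℝ) (l : Fin 3 → ℝ), Function.Injective l ∧
    (∀ i, v i ≠ 0 ∧ (A.map fun z : ℤ => (z : ℝ)).mulVec (v i) = l i • v i) ∧
    C = {x | ∃ t : Fin 3 → ℝ, (∀ i, 0 < t i) ∧ x = ∑ i, t i • v i}

/-- The set `A_3(m)`: the integer matrices with three distinct rational eigenvalues and with
entries whose absolute values sum to at most `m`. -/
def A3 (m : ℕ) : Set (Matrix (Fin 3) (Fin 3) ℤ) :=
  {A | (∃ a b c : ℚ, a ≠ b ∧ b ≠ c ∧ a ≠ c ∧
    (A.map fun z : ℤ => (z : ℚ)).charpoly =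
      (Polynomial.X - Polynomial.C a) * (Polynomial.X - Polynomial.C b) *
        (Polynomial.X - Polynomial.C c)) ∧
    ∑ i, ∑ j, |A i j| ≤ (m : ℤ)}

/-- The bounded two-dimensional faces with exactly `k` vertices of the sails of all the cones of
all the matrices of `A_3(m)`. -/
def Faces (m k : ℕ) : Set (Matrix (Fin 3) (Fin 3) ℤ × Set (Fin 3 → ℝ) × Set (Fin 3 → ℝ)) :=
  {p | p.1 ∈ A3 m ∧ IsEigenCone p.1 p.2.1 ∧ IsBoundedFace p.2.1 p.2.2 ∧
    (Set.extremePoints ℝ p.2.2).ncard = k}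

/-- The number of triangular faces. -/
noncomputable def T (m : ℕ) : ℕ := (Faces m 3).ncard

/-- The number of quadrangular faces. -/
noncomputable def Q (m : ℕ) : ℕ := (Faces m 4).ncard

/-- Everything is finite, `Q(m) > 0` for large `m`, and the lower limit of `T(m)/Q(m)` over the
`m` with `Q(m) > 0` is larger than `1`. -/
def Statement : Prop :=
  (∀ m k : ℕ, (Faces m k).Finite) ∧
  (∃ m₀ : ℕ, ∀ m : ℕ, m₀ ≤ m → 0 < Q m) ∧
  1 < liminf (fun m : ℕ => (T m : ENNReal) / (Q m : ENNReal)) (atTop ⊓ 𝓟 {m : ℕ | 0 < Q m})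

theorem of_tANS (h : SAIL.F.tANS) : Statement := by
  obtain ⟨hf, c, m₀, hc, h⟩ := h
  have hT : ∀ m, T m = (SAIL.F.Trip m 3).ncard := fun m => rfl
  have hQ : ∀ m, Q m = (SAIL.F.Trip m 4).ncard := fun m => rfl
  refine ⟨hf, ⟨⌈m₀⌉₊, fun m hm => ?_⟩, ?_⟩
  · have := (h m ((Nat.le_ceil m₀).trans (by exact_mod_cast hm))).1
    rwa [← hQ] at this
  · have h1 : (1 : ENNReal) < ENNReal.ofReal c := by
      rw [← ENNReal.ofReal_one]
      exact (ENNReal.ofReal_lt_ofReal_iff (by linarith)).mpr hc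
    refine lt_of_lt_of_le h1 ?_
    refine le_liminf_of_le (by isBoundedDefault) ?_
    rw [eventually_inf_principal]
    filter_upwards [eventually_ge_atTop ⌈m₀⌉₊] with m hm _
    obtain ⟨h2, h3⟩ := h m ((Nat.le_ceil m₀).trans (by exact_mod_cast hm))
    rw [← hQ] at h2 h3
    rw [← hT] at h3
    rw [ENNReal.le_div_iff_mul_le (Or.inl (by exact_mod_cast h2.ne'))
      (Or.inl (ENNReal.natCast_ne_top _))]
    have e1 : ENNReal.ofReal c * (Q m : ENNReal) = ENNReal.ofReal (c * (Q m : ℝ)) := by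
      rw [ENNReal.ofReal_mul (by linarith), ENNReal.ofReal_natCast]
    have e2 : (T m : ENNReal) = ENNReal.ofReal (T m : ℝ) := by rw [ENNReal.ofReal_natCast]
    rw [e1, e2]
    exact ENNReal.ofReal_le_ofReal h3

end SAIL.FINdraft
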